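import Pool.Agent.Lib.MP_a24e3f_co.CX.Spec

/-!
# MP_a24e3f_co, module BET: three points of the product are not collinear for all rotations
-/

namespace Pool.Agent.Lib.MPa24e3f.CX

open Pool.Agent.Lib.MP_a24e3f_co

namespace BETM

theorem CC_eq (a b k : ℂ) :
    CC a b (k * a) (b * star k) = (Complex.normSq b - Complex.normSq a) * k.im := by
  simp only [CC, Complex.star_def, map_mul, Complex.conj_conj, Complex.normSq_apply, Complex.mul_im,
    Complex.mul_re, Complex.conj_re, Complex.conj_im]
  ring

theorem exists_k (a b c d : ℂ) (ha : a ≠ 0) (h : b * star c = star a * d) :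
    ∃ k : ℂ, c = k * a ∧ d = b * star k := by
  have hs : star a ≠ 0 := star_ne_zero.2 ha
  refine ⟨c / a, ?_, ?_⟩
  · field_simp
  · have h1 : star (c / a) = star c / star a := by
      rw [Complex.star_def, map_div₀]
    rw [h1, ← mul_div_assoc, h]
    field_simp

end BETM

open BETM

theorem specBET : SpecBET := by
  intro V W G H f g hf hg hN p q r hpq hqr hpr
  obtain ⟨v, w⟩ := p
  obtain ⟨v', w'⟩ := q
  obtain ⟨v'', w''⟩ := r
  by_contra hcon
  push Not at hcon
  obtain ⟨hB, hC⟩ := hcon
  simp only at hB hC
  have hf0 : ∀ {x y : V}, f x - f y = 0 → x = y := fun h => hf.injective (sub_eq_zero.1 h)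
  have hg0 : ∀ {x y : W}, g x - g y = 0 → x = y := fun h => hg.injective (sub_eq_zero.1 h)
  have hB' : (g w' - g w) * star (f v'' - f v) = star (f v' - f v) * (g w'' - g w) := by
    have h1 := hB
    unfold BB at h1
    exact sub_eq_zero.1 h1
  by_cases ha : f v' - f v = 0
  · have hv : v' = v := hf0 ha
    subst hv
    have hw : w ≠ w' := fun h => hpq (by rw [h])
    have hb : g w' - g w ≠ 0 := fun h => hw (hg0 h).symm
    rw [ha, star_zero, zero_mul] at hB'
    have hc : f v'' - f v' = 0 := by
      rcases mul_eq_zero.1 hB' with h | h
      · exact absurd h hb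
      · exact star_eq_zero.1 h
    have hv2 : v'' = v' := hf0 hc
    subst hv2
    have hw1 : w' ≠ w'' := fun h => hqr (by rw [h])
    have hw2 : w ≠ w'' := fun h => hpr (by rw [h])
    have h2 := hg.noncol w w' w'' hw hw1 hw2
    apply h2
    unfold CC at hC
    rw [ha, zero_mul, Complex.zero_im, zero_add] at hC
    exact hC
  · have hv : v ≠ v' := fun h => ha (by rw [h, sub_self])
    by_cases hb : g w' - g w = 0
    · have hw : w' = w := hg0 hb
      subst hw
      rw [hb, zero_mul] at hB'
      have hd : g w'' - g w' = 0 := by
        rcases mul_eq_zero.1 hB'.symm with h | h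
        · exact absurd (star_eq_zero.1 h) ha
        · exact h
      have hw2 : w'' = w' := hg0 hd
      subst hw2
      have hv1 : v' ≠ v'' := fun h => hqr (by rw [h])
      have hv2 : v ≠ v'' := fun h => hpr (by rw [h])
      have h2 := hf.noncol v v' v'' hv hv1 hv2
      apply h2
      unfold CC at hC
      rw [hb, zero_mul, Complex.zero_im, add_zero] at hC
      exact hC
    · have hw : w ≠ w' := fun h => hb (by rw [h, sub_self])
      obtain ⟨k, hk1, hk2⟩ := exists_k _ _ _ _ ha hB'
      have hk0 : k ≠ 0 := by
        intro h
        rw [h, zero_mul] at hk1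
        rw [h, star_zero, mul_zero] at hk2
        exact hpr (by rw [hf0 hk1, hg0 hk2])
      have hv2 : v ≠ v'' := by
        intro h
        rw [← h, sub_self] at hk1
        rcases mul_eq_zero.1 hk1.symm with h' | h'
        · exact hk0 h'
        · exact ha h'
      have hw2 : w ≠ w'' := by
        intro h
        rw [← h, sub_self] at hk2
        rcases mul_eq_zero.1 hk2.symm with h' | h'
        · exact hb h'
        · exact hk0 (star_eq_zero.1 h')
      have hCk := hC
      rw [hk1, hk2, CC_eq] at hCk
      by_cases him : k.im = 0
      · -- `v' = v''`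
        have hv3 : v' = v'' := by
          by_contra hne
          apply hf.noncol v v' v'' hv hne hv2
          rw [hk1]
          simp only [Complex.star_def, map_mul, Complex.mul_im, Complex.mul_re, Complex.conj_re,
            Complex.conj_im]
          rw [him]
          ring
        have hk3 : k = 1 := by
          rw [← hv3] at hk1
          have h5 : (k - 1) * (f v' - f v) = 0 := by
            rw [sub_mul, one_mul, ← hk1, sub_self]
          rcases mul_eq_zero.1 h5 with h' | h'
          · exact sub_eq_zero.1 h'
          · exact absurd h' ha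
        rw [hk3, star_one, mul_one] at hk2
        have hw3 : w'' = w' := hg.injective (sub_left_injective hk2)
        exact hqr (by rw [hv3, hw3])
      · have hw3 : w' ≠ w'' := by
          intro h
          rw [← h] at hk2
          have h5 : (g w' - g w) * (star k - 1) = 0 := by
            rw [mul_sub, mul_one, ← hk2, sub_self]
          rcases mul_eq_zero.1 h5 with h' | h'
          · exact hb h'
          · apply him
            have h6 : star k = 1 := sub_eq_zero.1 h'
            have h7 : k = 1 := by
              rw [← star_star k, h6, star_one]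
            rw [h7, Complex.one_im]
        apply hN v v' w w' w'' hv hw hw2 hw3
        have h8 : Complex.normSq (g w' - g w) - Complex.normSq (f v' - f v) = 0 := by
          rcases mul_eq_zero.1 hCk with h' | h'
          · exact h'
          · exact absurd h' him
        rw [Complex.normSq_eq_norm_sq, Complex.normSq_eq_norm_sq] at h8
        have h9 : ‖f v' - f v‖ ^ 2 = ‖g w' - g w‖ ^ 2 := by linarith
        exact (sq_eq_sq₀ (norm_nonneg _) (norm_nonneg _)).1 h9

end Pool.Agent.Lib.MPa24e3f.CX
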