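import Pool.Agent.Lib.MP_a24e3f_co.CX.Spec

/-! # Module CIR: the exceptional points of the circle -/

set_option autoImplicit false

namespace Pool.Agent.Lib.MPa24e3f.CX

open Pool.Agent.Lib.MP_a24e3f_co

namespace CIRM

theorem unit (t : Circle) : (t : ℂ).re * (t : ℂ).re + (t : ℂ).im * (t : ℂ).im = 1 := by
  have h := Circle.normSq_coe t
  rwa [Complex.normSq_apply] at h

/-- the real part of `t γ` takes every value finitely often -/
theorem fin (γ : ℂ) (s : ℝ) (hγ : γ ≠ 0) : {t : Circle | ((t : ℂ) * γ).re = s}.Finite := by
  have key : ∀ t : Circle, ((t : ℂ) * γ).re = s → γ * (t : ℂ) ^ 2 - 2 * s * t + star γ = 0 := by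
    intro t ht
    have h1 := unit t
    rw [Complex.mul_re] at ht
    apply Complex.ext
    · simp only [Complex.add_re, Complex.sub_re, Complex.mul_re, Complex.mul_im, pow_two,
        Complex.star_def, Complex.conj_re, Complex.ofReal_re, Complex.ofReal_im, Complex.zero_re,
        Complex.re_ofNat, Complex.im_ofNat]
      linear_combination (2 * (t : ℂ).re) * ht - γ.re * h1
    · simp only [Complex.add_im, Complex.sub_im, Complex.mul_re, Complex.mul_im, pow_two,
        Complex.star_def, Complex.conj_im, Complex.ofReal_re, Complex.ofReal_im, Complex.zero_im,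
        Complex.re_ofNat, Complex.im_ofNat]
      linear_combination (2 * (t : ℂ).im) * ht + γ.im * h1
  rcases Set.eq_empty_or_nonempty {t : Circle | ((t : ℂ) * γ).re = s} with h | ⟨t₁, ht₁⟩
  · rw [h]; exact Set.finite_empty
  · have h1 := key t₁ ht₁
    refine Set.Finite.subset (Set.Finite.preimage (f := fun t : Circle => (t : ℂ))
      (fun t _ t' _ h => Circle.ext h) (Set.toFinite {(t₁ : ℂ), 2 * s / γ - t₁})) ?_
    intro t ht
    have h2 := key t ht
    have h3 : ((t : ℂ) - t₁) * (γ * ((t : ℂ) + t₁) - 2 * s) = 0 := by
      linear_combination h2 - h1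
    rcases mul_eq_zero.1 h3 with h4 | h4
    · exact Or.inl (sub_eq_zero.1 h4)
    · refine Or.inr ?_
      show (t : ℂ) = 2 * s / γ - t₁
      field_simp
      linear_combination h4

end CIRM

open CIRM in
theorem specCIR : SpecCIR := by
  constructor
  · intro a b c d h
    have e : ∀ t : Circle, ((a + t * b) * star (c + t * d)).im =
        CC a b c d + ((t : ℂ) * (-Complex.I * BB a b c d)).re := by
      intro t
      have h1 := unit t
      unfold CC BB
      simp only [Complex.mul_im, Complex.mul_re, Complex.add_re, Complex.add_im, Complex.sub_re,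
        Complex.sub_im, Complex.star_def, Complex.conj_re, Complex.conj_im, Complex.neg_re,
        Complex.neg_im, Complex.I_re, Complex.I_im]
      linear_combination (b.im * d.re - b.re * d.im) * h1
    by_cases hB : BB a b c d = 0
    · have hC : CC a b c d ≠ 0 := by
        rcases h with h | h
        · exact absurd hB h
        · exact h
      have : {t : Circle | ((a + t * b) * star (c + t * d)).im = 0} = ∅ := by
        ext t
        simp only [Set.mem_ofPred_eq, Set.mem_empty_iff_false, iff_false]
        rw [e, hB, mul_zero, mul_zero, Complex.zero_re, add_zero]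
        exact hC
      rw [this]
      exact Set.countable_empty
    · refine ((fin (-Complex.I * BB a b c d) (-CC a b c d)
        (mul_ne_zero (neg_ne_zero.2 Complex.I_ne_zero) hB)).subset ?_).countable
      intro t ht
      have ht' : ((a + t * b) * star (c + t * d)).im = 0 := ht
      rw [e] at ht'
      show ((t : ℂ) * (-Complex.I * BB a b c d)).re = -CC a b c d
      linarith
  · intro a b ha hb
    have hγ : b * star a ≠ 0 := mul_ne_zero hb (star_ne_zero.2 ha)
    refine Set.Countable.mono ?_ (Set.countable_iUnion fun q : ℚ =>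
      (fin (b * star a) (((q : ℝ) ^ 2 - Complex.normSq a - Complex.normSq b) / 2) hγ).countable)
    rintro t ⟨q, hq⟩
    refine Set.mem_iUnion.2 ⟨q, ?_⟩
    show ((t : ℂ) * (b * star a)).re = ((q : ℝ) ^ 2 - Complex.normSq a - Complex.normSq b) / 2
    have h1 := unit t
    have h2 : Complex.normSq (a + t * b) = (q : ℝ) ^ 2 := by
      rw [← hq, Complex.sq_norm]
    rw [Complex.normSq_apply] at h2
    rw [Complex.normSq_apply, Complex.normSq_apply]
    simp only [Complex.mul_im, Complex.mul_re, Complex.add_re, Complex.add_im,
      Complex.star_def, Complex.conj_re, Complex.conj_im] at h2 ⊢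
    linear_combination (1 / 2) * h2 - (1 / 2) * (b.re * b.re + b.im * b.im) * h1

end Pool.Agent.Lib.MPa24e3f.CX
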