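import Pool.Agent.Lib.MP_a24e3f_co.CX.Spec

/-! # Module FIN: the theorem on Cartesian products -/

set_option autoImplicit false

namespace Pool.Agent.Lib.MPa24e3f.CX

open Pool.Agent.Lib.MP_a24e3f_co

theorem specFIN (hTRA : SpecTRA) (hSCL : SpecSCL) (hLAM : SpecLAM) (hSUM : SpecSUM) : SpecFIN := by
  intro V W _ _ G H hc hf hg
  obtain ⟨f, hf⟩ := (hTRA V G).1 hf
  obtain ⟨g, hg⟩ := (hTRA W H).1 hg
  apply (hTRA (V × W) (G □ H)).2
  rcases hc with ⟨hV, hW⟩ | hc
  · have := hV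
    have := hW
    obtain ⟨n, hn, hN⟩ := hLAM V W f g hg.injective
    refine hSUM V W G H f _ hf (hSCL W H g n hn hg) ?_
    intro v v' w w' w'' _ hw _ _
    exact (hN v v' w w' hw).ne
  · refine hSUM V W G H f g hf hg ?_
    intro v v' w w' w'' _ h1 h2 h3
    exact absurd (hc w w' w'' h1 h2) h3

end Pool.Agent.Lib.MPa24e3f.CX
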