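import Pool.Agent.Lib.MP_a24e3f_co.CX.Spec

/-!
# MP_a24e3f_co, module GEN: a generic rotation (helper64)
-/

set_option autoImplicit false

namespace Pool.Agent.Lib.MPa24e3f.CX

open Pool.Agent.Lib.MP_a24e3f_co

theorem specGEN (hBET : SpecBET) (hCIR : SpecCIR) (hUNC : SpecUNC) : SpecGEN := by
  intro V W _ _ G H f g hf hg hN
  let I1 : Type := {x : (V × W) × (V × W) × (V × W) //
    x.1 ≠ x.2.1 ∧ x.2.1 ≠ x.2.2 ∧ x.1 ≠ x.2.2}
  let I2 : Type := {x : (V × W) × (V × W) // x.1.1 ≠ x.2.1 ∧ x.1.2 ≠ x.2.2}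
  have c1 : (⋃ i : I1, {t : Circle | (((f i.1.2.1.1 - f i.1.1.1) +
      t * (g i.1.2.1.2 - g i.1.1.2)) * star ((f i.1.2.2.1 - f i.1.1.1) +
      t * (g i.1.2.2.2 - g i.1.1.2))).im = 0}).Countable := by
    apply Set.countable_iUnion
    intro i
    exact hCIR.1 _ _ _ _ (hBET V W G H f g hf hg hN i.1.1 i.1.2.1 i.1.2.2 i.2.1 i.2.2.1 i.2.2.2)
  have c2 : (⋃ i : I2, {t : Circle | ∃ q : ℚ, ‖(f i.1.1.1 - f i.1.2.1) +
      t * (g i.1.1.2 - g i.1.2.2)‖ = (q : ℝ)}).Countable := by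
    apply Set.countable_iUnion
    intro i
    apply hCIR.2
    · exact sub_ne_zero.2 (fun h => i.2.1 (hf.injective h))
    · exact sub_ne_zero.2 (fun h => i.2.2 (hg.injective h))
  obtain ⟨t, ht⟩ := hUNC _ (c1.union c2)
  rw [Set.mem_union, not_or, Set.mem_iUnion, Set.mem_iUnion, not_exists, not_exists] at ht
  refine ⟨t, ?_, ?_⟩
  · intro p q r hpq hqr hpr him
    apply ht.1 ⟨(p, q, r), hpq, hqr, hpr⟩
    show (((f q.1 - f p.1) + t * (g q.2 - g p.2)) * star ((f r.1 - f p.1) +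
      t * (g r.2 - g p.2))).im = 0
    have e1 : (f q.1 - f p.1) + t * (g q.2 - g p.2) =
        (f q.1 + t * g q.2) - (f p.1 + t * g p.2) := by ring
    have e2 : (f r.1 - f p.1) + t * (g r.2 - g p.2) =
        (f r.1 + t * g r.2) - (f p.1 + t * g p.2) := by ring
    rw [e1, e2]
    exact him
  · rintro p q h1 h2 ⟨s, hs⟩
    apply ht.2 ⟨(p, q), h1, h2⟩
    refine ⟨s, ?_⟩
    show ‖(f p.1 - f q.1) + t * (g p.2 - g q.2)‖ = (s : ℝ)
    rw [← hs]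
    congr 1
    ring

end Pool.Agent.Lib.MPa24e3f.CX
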