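import Pool.Agent.Lib.MP_a24e3f_co.CX.Spec

namespace Pool.Agent.Lib.MPa24e3f.CX

open Pool.Agent.Lib.MP_a24e3f_co Filter

namespace LAMM

lemma ev (z : ℂ) (x y : ℂ) (h : x ≠ y) :
    ∀ᶠ n : ℕ in atTop, ‖z‖ < ‖(n : ℂ) * x - (n : ℂ) * y‖ := by
  have hpos : 0 < ‖x - y‖ := norm_pos_iff.mpr (sub_ne_zero.mpr h)
  have h1 : Tendsto (fun n : ℕ => (n : ℝ) * ‖x - y‖) atTop atTop :=
    tendsto_natCast_atTop_atTop.atTop_mul_const hpos
  filter_upwards [h1.eventually_gt_atTop ‖z‖] with n hn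
  have h2 : ‖(n : ℂ) * x - (n : ℂ) * y‖ = (n : ℝ) * ‖x - y‖ := by
    rw [← mul_sub, norm_mul, Complex.norm_natCast]
  rw [h2]
  exact hn

end LAMM

theorem specLAM : SpecLAM := by
  intro V W _ _ f g hg
  have hev : ∀ᶠ n : ℕ in atTop, ∀ v v' w w', w ≠ w' →
      ‖f v' - f v‖ < ‖(n : ℂ) * g w' - (n : ℂ) * g w‖ := by
    rw [eventually_all]; intro v
    rw [eventually_all]; intro v'
    rw [eventually_all]; intro w
    rw [eventually_all]; intro w'
    by_cases h : w = w'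
    · exact Eventually.of_forall fun n hn => absurd h hn
    · have hne : g w' ≠ g w := fun he => h (hg he).symm
      filter_upwards [LAMM.ev (f v' - f v) (g w') (g w) hne] with n hn _
      exact hn
  obtain ⟨n, hn, hpos⟩ := (hev.and (eventually_gt_atTop 0)).exists
  exact ⟨n, hpos, hn⟩

end Pool.Agent.Lib.MPa24e3f.CX
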