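import Pool.Agent.Lib.MP_a24e3f_co.CX.Spec

/-! # Module SCL: scaling by an integer -/

set_option autoImplicit false

namespace Pool.Agent.Lib.MPa24e3f.CX

open Pool.Agent.Lib.MP_a24e3f_co

theorem specSCL : SpecSCL := by
  intro V G f n hn hf
  have hn' : (n : ℂ) ≠ 0 := by exact_mod_cast hn.ne'
  have hnr : (n : ℝ) ≠ 0 := by exact_mod_cast hn.ne'
  refine ⟨?_, ?_, ?_⟩
  · intro v w h
    exact hf.injective (mul_left_cancel₀ hn' h)
  · intro u v w h1 h2 h3
    have h := hf.noncol u v w h1 h2 h3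
    have e : ((n : ℂ) * f v - (n : ℂ) * f u) * star ((n : ℂ) * f w - (n : ℂ) * f u)
        = (((n : ℝ) ^ 2 : ℝ) : ℂ) * ((f v - f u) * star (f w - f u)) := by
      rw [← mul_sub, ← mul_sub, star_mul', Complex.star_def,
        Complex.conj_natCast]
      push_cast
      ring
    show (((n : ℂ) * f v - (n : ℂ) * f u) * star ((n : ℂ) * f w - (n : ℂ) * f u)).im ≠ 0
    rw [e, Complex.im_ofReal_mul]
    exact mul_ne_zero (pow_ne_zero 2 hnr) h
  · intro u v huv
    rw [hf.adj_iff u v huv]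
    have e : ‖(n : ℂ) * f u - (n : ℂ) * f v‖ = n * ‖f u - f v‖ := by
      rw [← mul_sub, norm_mul, Complex.norm_natCast]
    constructor
    · rintro ⟨q, hq⟩
      refine ⟨n * q, ?_⟩
      show ‖(n : ℂ) * f u - (n : ℂ) * f v‖ = _
      rw [e, hq]
      push_cast
      ring
    · rintro ⟨q, hq⟩
      refine ⟨q / n, ?_⟩
      have hq' : ‖(n : ℂ) * f u - (n : ℂ) * f v‖ = q := hq
      rw [e] at hq'
      push_cast
      rw [← hq']
      field_simp

end Pool.Agent.Lib.MPa24e3f.CX
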