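import Pool.Agent.Lib.MP_a24e3f_co.CX.Spec

/-!
# Module SUM: the representation of the Cartesian product
-/

namespace Pool.Agent.Lib.MPa24e3f.CX

open Pool.Agent.Lib.MP_a24e3f_co

namespace SUMM

theorem norm_t_mul (t : Circle) (z : ℂ) : ‖(t : ℂ) * z‖ = ‖z‖ := by
  rw [norm_mul, Circle.norm_coe, one_mul]

end SUMM

open SUMM in
theorem specSUM (hGEN : SpecGEN) : SpecSUM := by
  intro V W _ _ G H f g hf hg hN
  obtain ⟨t, h1, h2⟩ := hGEN V W G H f g hf hg hN
  refine ⟨fun p => f p.1 + t * g p.2, ?_, ?_, ?_⟩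
  · intro p q hpq
    have hpq' : f p.1 + t * g p.2 = f q.1 + t * g q.2 := hpq
    by_cases ha : p.1 = q.1
    · have h3 : (t : ℂ) * g p.2 = t * g q.2 := by
        rw [ha] at hpq'
        exact add_left_cancel hpq'
      have h4 : g p.2 = g q.2 := mul_left_cancel₀ (Circle.coe_ne_zero t) h3
      exact Prod.ext ha (hg.injective h4)
    · by_cases hb : p.2 = q.2
      · have h3 : f p.1 = f q.1 := by
          rw [hb] at hpq'
          exact add_right_cancel hpq'
        exact Prod.ext (hf.injective h3) hb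
      · exfalso
        apply h2 p q ha hb
        refine ⟨0, ?_⟩
        rw [hpq', sub_self, norm_zero]
        simp
  · intro p q r hpq hqr hpr
    exact h1 p q r hpq hqr hpr
  · intro p q hpq
    show (G □ H).Adj p q ↔ ∃ s : ℚ, ‖(f p.1 + t * g p.2) - (f q.1 + t * g q.2)‖ = (s : ℝ)
    rw [SimpleGraph.boxProd_adj]
    by_cases ha : p.1 = q.1
    · have hb : p.2 ≠ q.2 := fun hb => hpq (Prod.ext ha hb)
      have h3 : (f p.1 + t * g p.2) - (f q.1 + t * g q.2) = t * (g p.2 - g q.2) := by
        rw [ha]; ring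
      rw [h3, norm_t_mul, ← hg.adj_iff p.2 q.2 hb]
      constructor
      · rintro (⟨h, _⟩ | ⟨h, _⟩)
        · rw [ha] at h
          exact absurd h (G.irrefl)
        · exact h
      · intro h
        exact Or.inr ⟨h, ha⟩
    · by_cases hb : p.2 = q.2
      · have h3 : (f p.1 + t * g p.2) - (f q.1 + t * g q.2) = f p.1 - f q.1 := by
          rw [hb]; ring
        rw [h3, ← hf.adj_iff p.1 q.1 ha]
        constructor
        · rintro (⟨h, _⟩ | ⟨_, h⟩)
          · exact h
          · exact absurd h ha
        · intro h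
          exact Or.inl ⟨h, hb⟩
      · constructor
        · rintro (⟨_, h⟩ | ⟨_, h⟩)
          · exact absurd h hb
          · exact absurd h ha
        · intro h
          exact absurd h (h2 p q ha hb)

end Pool.Agent.Lib.MPa24e3f.CX
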