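import Pool.Agent.Lib.MP_a24e3f_co.CX.Spec

/-!
# TRA (MP_a24e3f_co): rational representations in the plane and in complex coordinates
-/

set_option autoImplicit false

namespace Pool.Agent.Lib.MPa24e3f.CX

open Pool.Agent.Lib.MP_a24e3f_co

namespace TRAM

/-- the linear isometry of the complex numbers with the plane -/
noncomputable def L : ℂ ≃ₗᵢ[ℝ] Plane := Complex.orthonormalBasisOneI.repr

lemma im_eq (a b : ℂ) : (a * star b).im = a.im * b.re - a.re * b.im := by
  rw [Complex.mul_im]
  show a.re * (star b).im + a.im * (star b).re = _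
  have h1 : (star b).im = -b.im := rfl
  have h2 : (star b).re = b.re := rfl
  rw [h1, h2]
  ring

lemma col (z₁ z₂ z₃ : ℂ) (h : z₁ ≠ z₂) :
    Collinear ℝ ({L z₁, L z₂, L z₃} : Set Plane) ↔ ((z₂ - z₁) * star (z₃ - z₁)).im = 0 := by
  rw [collinear_iff_of_mem (p₀ := L z₁) (by simp)]
  constructor
  · rintro ⟨v, hv⟩
    obtain ⟨r, hr⟩ := hv (L z₂) (by simp)
    obtain ⟨s, hs⟩ := hv (L z₃) (by simp)
    have e2 : z₂ - z₁ = (r : ℂ) * L.symm v := by
      have h1 : L (z₂ - z₁) = r • v := by
        rw [map_sub, hr]
        simp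
      have h2 : z₂ - z₁ = L.symm (r • v) := by
        rw [← h1, LinearIsometryEquiv.symm_apply_apply]
      rw [h2, map_smul, Complex.real_smul]
    have e3 : z₃ - z₁ = (s : ℂ) * L.symm v := by
      have h1 : L (z₃ - z₁) = s • v := by
        rw [map_sub, hs]
        simp
      have h2 : z₃ - z₁ = L.symm (s • v) := by
        rw [← h1, LinearIsometryEquiv.symm_apply_apply]
      rw [h2, map_smul, Complex.real_smul]
    rw [e2, e3, im_eq]
    simp only [Complex.mul_re, Complex.mul_im, Complex.ofReal_re, Complex.ofReal_im]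
    ring
  · intro him
    rw [im_eq] at him
    set a := z₂ - z₁ with ha
    set b := z₃ - z₁ with hb
    have ha0 : a ≠ 0 := sub_ne_zero.2 (Ne.symm h)
    have hn : 0 < a.re ^ 2 + a.im ^ 2 := by
      by_contra hcon
      have h1 : a.re = 0 := by nlinarith [sq_nonneg a.re, sq_nonneg a.im]
      have h2 : a.im = 0 := by nlinarith [sq_nonneg a.re, sq_nonneg a.im]
      exact ha0 (Complex.ext h1 h2)
    have hb' : b = (((a.re * b.re + a.im * b.im) / (a.re ^ 2 + a.im ^ 2) : ℝ) : ℂ) * a := by
      apply Complex.ext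
      · rw [Complex.re_ofReal_mul]
        field_simp
        linear_combination a.im * him
      · rw [Complex.im_ofReal_mul]
        field_simp
        linear_combination (-a.re) * him
    refine ⟨L a, ?_⟩
    intro p hp
    simp only [Set.mem_insert_iff, Set.mem_singleton_iff] at hp
    rcases hp with rfl | rfl | rfl
    · exact ⟨0, by simp⟩
    · refine ⟨1, ?_⟩
      rw [one_smul, vadd_eq_add, ← map_add, ha, sub_add_cancel]
    · refine ⟨(a.re * b.re + a.im * b.im) / (a.re ^ 2 + a.im ^ 2), ?_⟩
      rw [vadd_eq_add, ← map_smul, ← map_add, Complex.real_smul, ← hb', hb, sub_add_cancel]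

end TRAM

open TRAM in
theorem specTRA : SpecTRA := by
  intro V G
  constructor
  · rintro ⟨f, hf⟩
    have hL : ∀ v, L (L.symm (f v)) = f v := fun v => L.apply_symm_apply _
    refine ⟨fun v => L.symm (f v), ?_, ?_, ?_⟩
    · intro u v h
      exact hf.injective (L.symm.injective h)
    · intro u v w huv hvw huw him
      have hne : L.symm (f u) ≠ L.symm (f v) := fun h => huv (hf.injective (L.symm.injective h))
      have h1 := (col (L.symm (f u)) (L.symm (f v)) (L.symm (f w)) hne).2 him
      rw [hL, hL, hL] at h1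
      exact hf.no_three_collinear u v w huv hvw huw h1
    · intro u v huv
      rw [hf.adj_iff u v huv]
      have h1 : ‖L.symm (f u) - L.symm (f v)‖ = dist (f u) (f v) := by
        rw [← dist_eq_norm, LinearIsometryEquiv.dist_map]
      rw [h1]
  · rintro ⟨f, hf⟩
    refine ⟨fun v => L (f v), ?_, ?_, ?_⟩
    · intro u v h
      exact hf.injective (L.injective h)
    · intro u v w huv hvw huw hcol
      have hne : f u ≠ f v := fun h => huv (hf.injective h)
      exact hf.noncol u v w huv hvw huw ((col (f u) (f v) (f w) hne).1 hcol)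
    · intro u v huv
      rw [hf.adj_iff u v huv, LinearIsometryEquiv.dist_map, dist_eq_norm]

end Pool.Agent.Lib.MPa24e3f.CX
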