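import Pool.Agent.Lib.MP_a24e3f_co.CX.Spec

/-! # UNC -/

namespace Pool.Agent.Lib.MPa24e3f.CX

theorem specUNC : SpecUNC := by
  intro S hS
  by_contra hcon
  push Not at hcon
  have h0 : (Set.univ : Set Circle).Countable := hS.mono fun t _ => hcon t
  have h : Countable Circle := Set.countable_univ_iff.1 h0
  have h1 : Countable (Set.Ioc (-Real.pi) Real.pi) := Circle.argEquiv.symm.injective.countable
  have h2 : (Set.Ioc (-Real.pi) Real.pi).Countable := Set.countable_coe_iff.1 h1
  rw [Cardinal.Real.Ioc_countable_iff] at h2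
  linarith [Real.pi_pos]

end Pool.Agent.Lib.MPa24e3f.CX
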