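import Pool.Agent.Lib.MP_a24e3f_co.CX.Spec
import Pool.Agent.Lib.MP_a24e3f_co.CX.TRA
import Pool.Agent.Lib.MP_a24e3f_co.CX.SCL
import Pool.Agent.Lib.MP_a24e3f_co.CX.LAM
import Pool.Agent.Lib.MP_a24e3f_co.CX.BET
import Pool.Agent.Lib.MP_a24e3f_co.CX.CIR
import Pool.Agent.Lib.MP_a24e3f_co.CX.UNC
import Pool.Agent.Lib.MP_a24e3f_co.CX.GEN
import Pool.Agent.Lib.MP_a24e3f_co.CX.SUM
import Pool.Agent.Lib.MP_a24e3f_co.CX.FIN

namespace Pool.Agent.Lib.MPa24e3f.CX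

theorem mainFIN : SpecFIN :=
  specFIN specTRA specSCL specLAM (specSUM (specGEN specBET specCIR specUNC))

end Pool.Agent.Lib.MPa24e3f.CX
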