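import Pool.Agent.Lib.MP_a24e3f_co.CX.Main
import Pool.Agent.Lib.MP_a24e3f_co.CC.Hamming2

namespace Pool.Agent.Lib.MPa24e3f.CX

open Pool.Agent.Lib.MP_a24e3f_co Pool.Agent.Lib.MP_a24e3f_co.CC

/-- Products with the infinite Hamming graph, from helper58's `weak_product`. -/
theorem hamProduct {V : Type} [Countable V] (T : SimpleGraph V) (f : V → Plane) (R : ℝ)
    (hf : IsRationalRep T f)
    (hR : ∀ x y z, T.Adj x y → T.Adj y z → T.Adj x z →
      ∃ c : Plane, dist (f x) c ≤ R ∧ dist (f y) c = dist (f x) c ∧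
        dist (f z) c = dist (f x) c) :
    ∃ F : V × (ℕ →₀ ℕ) → Plane, IsRationalRep (T □ Ham) F := by
  rw [← hamming_eq]
  obtain ⟨N, hN⟩ := exists_nat_gt R
  refine weak_product hf N (fun x y z h1 h2 h3 => ?_)
  obtain ⟨c, hx, hy, hz⟩ := hR x y z h1 h2 h3
  have har : 0 < ar (f x) (f y) (f z) ^ 2 := by
    have := rep_ar_ne hf h1.ne h2.ne h3.ne
    positivity
  have h0 : 0 ≤ dist (f x) c := dist_nonneg
  have hsx : sd (f x) c = dist (f x) c ^ 2 := by rw [sd_eq_dist]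
  have hsy : sd (f y) c = dist (f x) c ^ 2 := by rw [sd_eq_dist, hy]
  have hsz : sd (f z) c = dist (f x) c ^ 2 := by rw [sd_eq_dist, hz]
  rw [circ_gen (f x) (f y) (f z) c (dist (f x) c ^ 2) hsx hsy hsz]
  have h4 : dist (f x) c ^ 2 < ((N : ℝ) + 1) ^ 2 := by nlinarith
  nlinarith

end Pool.Agent.Lib.MPa24e3f.CX
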