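import Mathlib
import Pool.Agent.Lib.MP_a24e3f_co.Defs

/-!
# CX: Cartesian products of rational graphs (MP_a24e3f_co, Q1)

THEOREM (CartesianProducts). Let `G` and `H` be rational graphs. If both are finite, then the
Cartesian product `G □ H` is a rational graph; also if `G` is countable and `H` has at most two
vertices. (So all Hamming graphs `K_n □ ... □ K_n` are rational graphs, and, taking induced
subgraphs of `G □ H`, so is every amalgam of two finite rational graphs in one vertex.)

IDEA. Let `f`, `g` be rational representations in the complex plane. Scale `g` by a large integer and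
put `F (v, w) = f v + t g w` with a generic complex number `t` of modulus one. If `v = v'` or
`w = w'`, the distance is that of `g` or `f`; otherwise it is irrational for all but countably many
`t`. Three points `F` are collinear iff `C + im (t B) = 0`, `B = b conj c - conj a d`,
`C = im (a conj c) + im (b conj d)`, which holds for at most two `t`, unless `B = C = 0`: that happens
only if a triangle of `f` is the mirror image of a triangle of `g`, excluded by the scaling.

HIVE. Module XXX = file CX/XXX.lean, imports ONLY this file (`Pool.Agent.Lib.MP_a24e3f_co.CX.Spec`),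
namespace `Pool.Agent.Lib.MPa24e3f.CX`, theorem `specXXX (hYYY : SpecYYY) ... : SpecXXX`, own lemmas
in the namespace `Pool.Agent.Lib.MPa24e3f.CX.XXXM`. Claim in table cxb_modules, status done when on
main (git land). All facts needed are proved in the docstrings. -/

namespace Pool.Agent.Lib.MPa24e3f.CX

open Pool.Agent.Lib.MP_a24e3f_co

/-- The rational representations in complex coordinates. -/
structure CRep {V : Type} (G : SimpleGraph V) (f : V → ℂ) : Prop where
  injective : Function.Injective f
  noncol : ∀ u v w, u ≠ v → v ≠ w → u ≠ w → ((f v - f u) * star (f w - f u)).im ≠ 0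
  adj_iff : ∀ u v, u ≠ v → (G.Adj u v ↔ ∃ q : ℚ, ‖f u - f v‖ = (q : ℝ))

/-- `a, b` and `c, d`: the differences of a triple of vertices of the product; `BB = 0 = CC` is the
case in which the three points are collinear for every `t`. -/
noncomputable def BB (a b c d : ℂ) : ℂ := b * star c - star a * d

/-- See `BB`. -/
noncomputable def CC (a b c d : ℂ) : ℝ := (a * star c).im + (b * star d).im

/-- TRA (90 lines). PROOF. `L = Complex.orthonormalBasisOneI.repr : ℂ ≃ₗᵢ[ℝ] Plane` is a linear
isometry equivalence (coordinates real part, imaginary part). Given `f : V → Plane` take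
`L.symm ∘ f`, given `f : V → ℂ` take `L ∘ f`. Injectivity and distances are preserved
(`dist z w = ‖z - w‖`). Collinearity of three points `x, y, z` of the plane with complex coordinates
`p, q, r` (`p ≠ q`): iff `r - p` is a real multiple of `q - p` iff `((q - p) * star (r - p)).im = 0`
(`(q - p) star (r - p) = s` real gives `r - p = s (q - p) / |q - p|^2`; conversely a real multiple
makes the product real). (`collinear_iff_of_mem` with base point `x`; `Collinear` is preserved by
the affine map `L`: or prove it in the plane with coordinates `0, 1`.) -/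
def SpecTRA : Prop :=
  ∀ (V : Type) (G : SimpleGraph V),
    (∃ f : V → Plane, IsRationalRep G f) ↔ ∃ f : V → ℂ, CRep G f

/-- SCL (30 lines). PROOF. `((n : ℂ) * z) * star ((n : ℂ) * w) = n^2 (z * star w)`; the distances are
multiplied by the positive integer `n`, so they are rational iff they were. -/
def SpecSCL : Prop :=
  ∀ (V : Type) (G : SimpleGraph V) (f : V → ℂ) (n : ℕ), 0 < n → CRep G f →
    CRep G (fun v => (n : ℂ) * f v)

/-- LAM (50 lines). PROOF. `V`, `W` are finite, `g` injective: let `M` be at least all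
`‖f v' - f v‖` and `m > 0` at most all `‖g w' - g w‖`, `w ≠ w'` (finitely many positive numbers; if
there are none take `m = 1`), and `n` an integer with `n m > M`, `n > 0`. -/
def SpecLAM : Prop :=
  ∀ (V W : Type) [Finite V] [Finite W] (f : V → ℂ) (g : W → ℂ), Function.Injective g →
    ∃ n : ℕ, 0 < n ∧ ∀ v v' w w', w ≠ w' → ‖f v' - f v‖ < ‖(n : ℂ) * g w' - (n : ℂ) * g w‖

/-- BET (120 lines). For three different pairs `(v, w), (v', w'), (v'', w'')` put `a = f v' - f v`,
`b = g w' - g w`, `c = f v'' - f v`, `d = g w'' - g w`. PROOF. Suppose `BB = 0`, that is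
`b * star c = star a * d`. We show `CC ≠ 0`.
(1) `a = 0`, i.e. `v' = v`. Then `b ≠ 0` (the pairs are different), so `c = 0`, `v'' = v`; the three
`w`'s are different and `CC = im (b * star d) ≠ 0` (noncol of `g`).
(2) `a ≠ 0`, `b = 0`: then `star a * d = 0`, `d = 0`: `w = w' = w''`, the three `v`'s are different,
`CC = im (a * star c) ≠ 0` (noncol of `f`).
(3) `a ≠ 0`, `b ≠ 0`. If `c = 0` then `d = 0` and the third pair is the first. So `c ≠ 0`. Let
`k = c / a ≠ 0`; `d = b * star c / star a = b * star k ≠ 0`. So `a * star c = |a|^2 star k`,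
`b * star d = |b|^2 k` and `CC = (|b|^2 - |a|^2) im k`. If `im k = 0`: then `a * star c` is real, so
by noncol of `f` (`v' ≠ v`, `v'' ≠ v`) `v'' = v'`, `c = a`, `k = 1`, `d = b`, `w'' = w'`: the third
pair is the second, a contradiction. So `im k ≠ 0`. Moreover `w, w', w''` are different (`b ≠ 0`,
`d ≠ 0`; if `w'' = w'` then `d = b`, `star k = 1`, `k` real), so `|a| ≠ |b|` by the hypothesis `hN`.
So `CC ≠ 0`. -/
def SpecBET : Prop :=
  ∀ (V W : Type) (G : SimpleGraph V) (H : SimpleGraph W) (f : V → ℂ) (g : W → ℂ),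
    CRep G f → CRep H g →
    (∀ v v' w w' w'', v ≠ v' → w ≠ w' → w ≠ w'' → w' ≠ w'' → ‖f v' - f v‖ ≠ ‖g w' - g w‖) →
    ∀ p q r : V × W, p ≠ q → q ≠ r → p ≠ r →
      BB (f q.1 - f p.1) (g q.2 - g p.2) (f r.1 - f p.1) (g r.2 - g p.2) ≠ 0 ∨
      CC (f q.1 - f p.1) (g q.2 - g p.2) (f r.1 - f p.1) (g r.2 - g p.2) ≠ 0

/-- CIR (90 lines). PROOF. (1) For `γ ≠ 0` and real `s` the set of the `t` of modulus one with
`re (t γ) = s` is finite: `t γ + star t star γ = 2 s` and `star t = 1/t`, so
`γ t^2 - 2 s t + star γ = 0`, a polynomial of degree two with leading coefficient `γ ≠ 0` (finitely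
many roots; e.g. `Polynomial.finite_setOf_isRoot`/`rootSet_finite`, or: two solutions `t1 ≠ t2`
satisfy `t1 + t2 = 2 s/γ`, so all others agree with `t2`). `im (t γ) = re (t (-i γ))`.
First set: `im ((a + t b) star (c + t d)) = CC + im (t BB)` (expand, `t star t = 1` and
`im (star t (a star d)) = - im (t (star a) d)`); if `BB ≠ 0` use (1) with `γ = - i BB`; if `BB = 0`
and `CC ≠ 0` the set is empty.
Second set: `‖a + t b‖ = q` gives `|a|^2 + |b|^2 + 2 re (t b star a) = q^2`, use (1) with
`γ = b star a ≠ 0`, for every rational `q`; a countable union of finite sets is countable. -/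
def SpecCIR : Prop :=
  (∀ a b c d : ℂ, (BB a b c d ≠ 0 ∨ CC a b c d ≠ 0) →
    {t : Circle | ((a + t * b) * star (c + t * d)).im = 0}.Countable) ∧
  (∀ a b : ℂ, a ≠ 0 → b ≠ 0 → {t : Circle | ∃ q : ℚ, ‖a + t * b‖ = (q : ℝ)}.Countable)

/-- UNC (40 lines). PROOF. `Circle` is uncountable: `Circle.exp` is injective on `(-π, π]`
(`Circle.arg_exp`) and this interval is uncountable (`Cardinal.mk_Ioc_real`; see
`Pool/Agent/Lib/MP_a24e3f_co/CR/ROT.lean` on main for a proof). So the complement of a countable set
is nonempty. -/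
def SpecUNC : Prop := ∀ S : Set Circle, S.Countable → ∃ t : Circle, t ∉ S

/-- GEN (100 lines, uses BET, CIR, UNC). PROOF. The set of bad `t` is the union over all triples of
different pairs `p, q, r` (countably many: `V × W` is countable) of the first sets of CIR (countable
by BET and CIR) and over all pairs `p, q` with `p.1 ≠ q.1`, `p.2 ≠ q.2` of the second sets (`a = f p.1
- f q.1 ≠ 0`, `b = g p.2 - g q.2 ≠ 0`): countable. Take `t` outside it (UNC), and note
`(f q.1 + t g q.2) - (f p.1 + t g p.2) = a + t b`. -/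
def SpecGEN : Prop :=
  ∀ (V W : Type) [Countable V] [Countable W] (G : SimpleGraph V) (H : SimpleGraph W)
    (f : V → ℂ) (g : W → ℂ), CRep G f → CRep H g →
    (∀ v v' w w' w'', v ≠ v' → w ≠ w' → w ≠ w'' → w' ≠ w'' → ‖f v' - f v‖ ≠ ‖g w' - g w‖) →
    ∃ t : Circle,
      (∀ p q r : V × W, p ≠ q → q ≠ r → p ≠ r →
        (((f q.1 + t * g q.2) - (f p.1 + t * g p.2)) *
          star ((f r.1 + t * g r.2) - (f p.1 + t * g p.2))).im ≠ 0) ∧
      (∀ p q : V × W, p.1 ≠ q.1 → p.2 ≠ q.2 →
        ¬ ∃ s : ℚ, ‖(f p.1 + t * g p.2) - (f q.1 + t * g q.2)‖ = (s : ℝ))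

/-- SUM (90 lines, uses GEN). PROOF. With `t` from GEN let `F p = f p.1 + t * g p.2`. noncol: GEN.
Injective: let `F p = F q`, `p ≠ q`. If `p.1 ≠ q.1` and `p.2 ≠ q.2` the distance `0` would be
rational, against GEN. If `p.1 = q.1` then `t g p.2 = t g q.2`, `g p.2 = g q.2`, `p.2 = q.2`, `p = q`;
similarly if `p.2 = q.2`. Adjacency for `p ≠ q` (`SimpleGraph.boxProd_adj`): if both coordinates
differ, both sides are false. If `p.1 = q.1` (so `p.2 ≠ q.2`): `‖F p - F q‖ = ‖g p.2 - g q.2‖`, and
`p, q` are adjacent iff `H.Adj p.2 q.2`. If `p.2 = q.2`: `‖F p - F q‖ = ‖f p.1 - f q.1‖`, adjacent iff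
`G.Adj p.1 q.1`. -/
def SpecSUM : Prop :=
  ∀ (V W : Type) [Countable V] [Countable W] (G : SimpleGraph V) (H : SimpleGraph W)
    (f : V → ℂ) (g : W → ℂ), CRep G f → CRep H g →
    (∀ v v' w w' w'', v ≠ v' → w ≠ w' → w ≠ w'' → w' ≠ w'' → ‖f v' - f v‖ ≠ ‖g w' - g w‖) →
    ∃ F : V × W → ℂ, CRep (G □ H) F

/-- FIN (50 lines, uses TRA, SCL, LAM, SUM). PROOF. TRA for both graphs. If both are finite, replace
`g` by `n g` (LAM, SCL), then apply SUM. Otherwise the hypothesis of SUM is vacuous. -/
def SpecFIN : Prop :=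
  ∀ (V W : Type) [Countable V] [Countable W] (G : SimpleGraph V) (H : SimpleGraph W),
    ((Finite V ∧ Finite W) ∨ (∀ w w' w'' : W, w ≠ w' → w ≠ w'' → w' = w'')) →
    (∃ f : V → Plane, IsRationalRep G f) → (∃ g : W → Plane, IsRationalRep H g) →
    ∃ F : V × W → Plane, IsRationalRep (G □ H) F

end Pool.Agent.Lib.MPa24e3f.CX
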